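import Pool.Agent.H70.EH.Targets

/-!
# Chernoff bounds for independent copies (module CHA)
-/

set_option autoImplicit false

namespace Pool.Agent.H18.EH

open Finset Pool.Agent.H6.NB Pool.Agent.H70.OQ Pool.Agent.H70.EH

/-- The expectation of a product of independent factors. -/
theorem sum_prod_pow (U T : Type) [Fintype U] [DecidableEq U] [Fintype T] (m h : T → ℝ) :
    ∑ P : U → T, (∏ u, m (P u)) * ∏ u, h (P u) = (∑ p, m p * h p) ^ Fintype.card U := by
  classical
  have h1 : ∏ _u : U, ∑ p : T, m p * h p = ∑ P : U → T, ∏ u, (m (P u) * h (P u)) := by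
    rw [Finset.prod_univ_sum, Fintype.piFinset_univ]
  rw [Finset.prod_const, Finset.card_univ] at h1
  rw [h1]
  exact Finset.sum_congr rfl fun P _ => Finset.prod_mul_distrib.symm

theorem exp_le_two {x : ℝ} (h0 : 0 ≤ x) (h1 : x ≤ 1) : Real.exp x ≤ 1 + 2 * x := by
  have h := convexOn_exp.2 (Set.mem_univ (0 : ℝ)) (Set.mem_univ (1 : ℝ))
    (sub_nonneg.2 h1) h0 (by ring)
  simp only [smul_eq_mul, mul_zero, mul_one, zero_add, Real.exp_zero] at h
  have h3 : Real.exp 1 ≤ 3 := by linarith [Real.exp_one_lt_d9]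
  nlinarith [mul_le_mul_of_nonneg_left h3 h0]

theorem exp_neg_le_five {x : ℝ} (h0 : 0 ≤ x) (h1 : x ≤ 1) : Real.exp (-x) ≤ 1 - 5 / 8 * x := by
  have h := convexOn_exp.2 (Set.mem_univ (0 : ℝ)) (Set.mem_univ (-1 : ℝ))
    (sub_nonneg.2 h1) h0 (by ring)
  simp only [smul_eq_mul, mul_zero, mul_one, zero_add, Real.exp_zero, mul_neg] at h
  have h3 : Real.exp (-1) ≤ 3 / 8 := by
    rw [Real.exp_neg, inv_le_comm₀ (Real.exp_pos 1) (by norm_num)]
    linarith [Real.exp_one_gt_d9]
  nlinarith [mul_le_mul_of_nonneg_left h3 h0]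

/-- CHA: Chernoff bounds. -/
theorem cha : T_CHA := by
  intro U T _ _ _ _ _ m g a hm hm1 hg ha
  have hn : (0 : ℝ) < Fintype.card U := by exact_mod_cast Fintype.card_pos
  have hP : ∀ P : U → T, 0 ≤ ∏ u, m (P u) := fun P => Finset.prod_nonneg fun u _ => hm _
  constructor
  · intro hμ
    have h1 : ∀ P : U → T, (∏ u, m (P u)) *
        (if (∑ u, g (P u)) / Fintype.card U ≤ a then (0 : ℝ) else 1) ≤
        Real.exp (-(Fintype.card U * a)) * ((∏ u, m (P u)) * ∏ u, Real.exp (g (P u))) := by
      intro P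
      have h2 : (if (∑ u, g (P u)) / Fintype.card U ≤ a then (0 : ℝ) else 1) ≤
          Real.exp (-(Fintype.card U * a)) * ∏ u, Real.exp (g (P u)) := by
        rw [← Real.exp_sum, ← Real.exp_add]
        split_ifs with h
        · exact (Real.exp_pos _).le
        · rw [not_le, lt_div_iff₀ hn] at h
          exact Real.one_le_exp (by linarith [mul_comm a (Fintype.card U : ℝ)])
      calc _ ≤ (∏ u, m (P u)) * (Real.exp (-(Fintype.card U * a)) * ∏ u, Real.exp (g (P u))) :=
            mul_le_mul_of_nonneg_left h2 (hP P)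
        _ = _ := by ring
    refine (Finset.sum_le_sum fun P _ => h1 P).trans ?_
    rw [← Finset.mul_sum, sum_prod_pow U T m fun p => Real.exp (g p)]
    have h3 : ∑ p, m p * Real.exp (g p) ≤ Real.exp (a / 2) := by
      have h4 : ∑ p, m p * Real.exp (g p) ≤ ∑ p, (m p + 2 * (m p * g p)) := by
        refine Finset.sum_le_sum fun p _ => ?_
        have := mul_le_mul_of_nonneg_left (exp_le_two (hg p).1 (hg p).2) (hm p)
        linarith
      rw [Finset.sum_add_distrib, hm1, ← Finset.mul_sum] at h4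
      have h5 := Real.add_one_le_exp (a / 2)
      linarith
    have h6 : 0 ≤ ∑ p, m p * Real.exp (g p) :=
      Finset.sum_nonneg fun p _ => mul_nonneg (hm p) (Real.exp_pos _).le
    calc _ ≤ Real.exp (-(Fintype.card U * a)) * Real.exp (a / 2) ^ Fintype.card U :=
          mul_le_mul_of_nonneg_left (pow_le_pow_left₀ h6 h3 _) (Real.exp_pos _).le
      _ = Real.exp (-(Fintype.card U * a / 2)) := by
          rw [← Real.exp_nat_mul, ← Real.exp_add]
          congr 1
          ring
  · intro hμ
    have h1 : ∀ P : U → T, (∏ u, m (P u)) *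
        (if a / 2 ≤ (∑ u, g (P u)) / Fintype.card U then (0 : ℝ) else 1) ≤
        Real.exp (Fintype.card U * a / 2) * ((∏ u, m (P u)) * ∏ u, Real.exp (-g (P u))) := by
      intro P
      have h2 : (if a / 2 ≤ (∑ u, g (P u)) / Fintype.card U then (0 : ℝ) else 1) ≤
          Real.exp (Fintype.card U * a / 2) * ∏ u, Real.exp (-g (P u)) := by
        rw [← Real.exp_sum, ← Real.exp_add]
        split_ifs with h
        · exact (Real.exp_pos _).le
        · rw [not_le, div_lt_iff₀ hn] at h
          refine Real.one_le_exp ?_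
          rw [Finset.sum_neg_distrib]
          linarith [mul_comm (a / 2) (Fintype.card U : ℝ)]
      calc _ ≤ (∏ u, m (P u)) * (Real.exp (Fintype.card U * a / 2) * ∏ u, Real.exp (-g (P u))) :=
            mul_le_mul_of_nonneg_left h2 (hP P)
        _ = _ := by ring
    refine (Finset.sum_le_sum fun P _ => h1 P).trans ?_
    rw [← Finset.mul_sum, sum_prod_pow U T m fun p => Real.exp (-g p)]
    have h3 : ∑ p, m p * Real.exp (-g p) ≤ Real.exp (-(5 / 8 * a)) := by
      have h4 : ∑ p, m p * Real.exp (-g p) ≤ ∑ p, (m p - 5 / 8 * (m p * g p)) := by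
        refine Finset.sum_le_sum fun p _ => ?_
        have := mul_le_mul_of_nonneg_left (exp_neg_le_five (hg p).1 (hg p).2) (hm p)
        linarith
      rw [Finset.sum_sub_distrib, hm1, ← Finset.mul_sum] at h4
      have h5 := Real.add_one_le_exp (-(5 / 8 * a))
      linarith
    have h6 : 0 ≤ ∑ p, m p * Real.exp (-g p) :=
      Finset.sum_nonneg fun p _ => mul_nonneg (hm p) (Real.exp_pos _).le
    calc _ ≤ Real.exp (Fintype.card U * a / 2) * Real.exp (-(5 / 8 * a)) ^ Fintype.card U :=
          mul_le_mul_of_nonneg_left (pow_le_pow_left₀ h6 h3 _) (Real.exp_pos _).le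
      _ = Real.exp (-(Fintype.card U * a / 8)) := by
          rw [← Real.exp_nat_mul, ← Real.exp_add]
          congr 1
          ring

end Pool.Agent.H18.EH
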