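import Pool.Agent.H70.EH.Targets

/-!
# The answers as functions of one copy (module CLX)
-/

set_option autoImplicit false

namespace Pool.Agent.H18.EH

open Finset Pool.Agent.H6.NB Pool.Agent.H70.OQ Pool.Agent.H70.EH

/-- CLX: the answers as functions of one copy. -/
theorem clx (h1 : T_POS) (h2 : T_SLT) (h3 : T_DTC) (h4 : T_ALC) (h5 : Pool.Agent.H6.NB.T_CLB) :
    T_CLX := by
  intro V M e he hmono j κ P u
  obtain ⟨-, hsc, hsl, hj, -⟩ := h2 V M e he
  have hj' := hj hmono j
  set r := sc V e j with hr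
  set S := 2 ^ 2 ^ r with hS
  set Q : (VV (qs (sl V e j)) → Bool) → ∀ j, Bk V e j := fun p =>
    Function.update P j (Function.update (P j) u p) with hQ
  have hr20 : 20 ≤ r := (hsc j).1
  have h2r : 2 ≤ 2 ^ r := by
    calc 2 = 2 ^ 1 := rfl
      _ ≤ 2 ^ r := Nat.pow_le_pow_right (by norm_num) (by omega)
  have hrS : 2 ^ r ≤ S := (Nat.lt_two_pow_self).le
  have hS2 : 2 ≤ S := h2r.trans hrS
  obtain ⟨-, hcm, hcg, -, -⟩ := h5 (VV (qs (sl V e j))) S hS2
  have h0 : ∀ w, Cl (VV (qs (sl V e j))) S 0 fun p => OP V e (Q p) w := fun w =>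
    (h1 V M e he).2 P j u w
  have han : ∀ i : {i : Fin M // i ≤ j}, Cl (VV (qs (sl V e j))) S (r - 17) fun p =>
      an V e (Q p) i.1 := by
    intro i
    have hi : sc V e i.1 ≤ r := hsl i.1 j (hmono i.2)
    set x := (e i.1).2 with hx
    set N := V (e i.1).1 with hN
    have hi' : x.length + (e i.1).1 + N.alt x.length + Nat.log 2 (N.time x.length) + 20 ≤ r := hi
    set t := N.time x.length with ht
    have ht1 : t < 2 ^ (Nat.log 2 t + 1) := Nat.lt_pow_succ_log_self (by norm_num) t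
    have ht2 : 2 ^ (Nat.log 2 t + 1) ≤ 2 ^ r := Nat.pow_le_pow_right (by norm_num) (by omega)
    have ht3 : 2 ^ (t + 1) ≤ S := Nat.pow_le_pow_right (by norm_num) (by omega)
    have ht4 : 2 ^ t ≤ S := (Nat.pow_le_pow_right (by norm_num) (by omega)).trans ht3
    have ht5 : t ≤ S := (Nat.lt_two_pow_self).le.trans ht4
    have hal := h4 (VV (qs (sl V e j))) S t 2 (N.alt x.length)
      (fun ws p => (N.tree x ws).eval (OP V e (Q p))) hS2 ht3 fun ws hws hw =>
        h3 (VV (qs (sl V e j))) S t t (N.tree x ws) (fun p => OP V e (Q p)) hS2 ht5 ht4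
          (N.depth_le x ws hws hw) (N.short x ws hws hw) h0
    exact hcm (2 + N.alt x.length + 1) (r - 17) _ (by omega) hal
  have hcard : Fintype.card {i : Fin M // i ≤ j} ≤ S := by
    have : Fintype.card {i : Fin M // i ≤ j} = (Finset.Iic j).card :=
      Fintype.card_of_subtype _ fun i => Finset.mem_Iic
    rw [this, Fin.card_Iic]
    exact hj'.trans hrS
  have hneg : Cl (VV (qs (sl V e j))) S (r - 17 + 1) fun p =>
      !decide (∀ i ≤ j, an V e (Q p) i = κ i) := by
    refine hcg (r - 17) {i : Fin M // i ≤ j} (fun i p => an V e (Q p) i.1) (fun i => !κ i.1) _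
      hcard han fun p => ?_
    rw [Bool.not_eq_true', decide_eq_false_iff_not]
    push Not
    constructor
    · rintro ⟨i, hi, hne⟩
      exact ⟨⟨i, hi⟩, Bool.eq_not_of_ne hne⟩
    · rintro ⟨i, hi⟩
      refine ⟨i.1, i.2, ?_⟩
      rw [hi]
      simp
  have hpos : Cl (VV (qs (sl V e j))) S (r - 17 + 1 + 1) fun p =>
      decide (∀ i ≤ j, an V e (Q p) i = κ i) := by
    refine hcg (r - 17 + 1) Unit (fun _ p => !decide (∀ i ≤ j, an V e (Q p) i = κ i))
      (fun _ => false) _ (by simp only [Fintype.card_unit]; omega) (fun _ => hneg) fun p => ?_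
    constructor
    · intro h
      exact ⟨(), by simp only [h, Bool.not_true]⟩
    · rintro ⟨_, h⟩
      exact (Bool.not_eq_false' ..).mp h
  exact hcm (r - 17 + 1 + 1) (r + 2) _ (by omega) hpos

end Pool.Agent.H18.EH
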